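import Pool.Agent.H69L.TP.Field
import Pool.Agent.H98.EH.KKM

/-!
# H70.RG.Chain: the chain label

A field on the configurations of `l + 1 = p + r` lines, `p` and `r` coprime, which is not inward on the
face `r`. On this face the label is the first nonempty gap of the run `r, r - p, r - 2 p, ...`.
-/

set_option autoImplicit false
set_option linter.unusedSectionVars false

namespace Pool.Agent.H70.RG

open Finset Pool.Agent.H84L Pool.Agent.H69L.TP

variable {l N : ℕ}

/-- the positions with the first line at the time `0` -/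
def cns (x : Fin l → ℕ) : Fin (l + 1) → ℕ := Fin.cons 0 x

lemma cns_zero (x : Fin l → ℕ) : cns x 0 = 0 := rfl

lemma cns_succ (x : Fin l → ℕ) (i : Fin l) : cns x i.succ = x i := by
  unfold cns
  rw [Fin.cons_succ]

lemma cns_mk (x : Fin l → ℕ) {i : ℕ} (h : i + 1 < l + 1) : cns x ⟨i + 1, h⟩ = x ⟨i, by omega⟩ :=
  cns_succ x ⟨i, by omega⟩

lemma cns_adm {x : Fin l → ℕ} (h : Monotone x) (hN : ∀ i, x i ≤ N) : Adm N (cns x) := by
  refine ⟨?_, ?_, ?_⟩
  · intro i j hij
    obtain ⟨i, hi⟩ := i
    obtain ⟨j, hj⟩ := j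
    rcases i with _ | i
    · exact Nat.zero_le _
    · rcases j with _ | j
      · exact absurd hij (by simp)
      · rw [cns_mk, cns_mk]
        refine h ?_
        rw [Fin.le_def] at hij ⊢
        simpa using hij
  · intro i
    obtain ⟨i, hi⟩ := i
    rcases i with _ | i
    · exact Nat.zero_le _
    · rw [cns_mk]
      exact hN _
  · intro i hi
    have : i = 0 := Fin.ext hi
    rw [this]
    rfl

/-- the index of the gap in the KKM lemma -/
def dn (g : Fin (l + 1)) : Fin (l + 1) :=
  if g.val = 0 then Fin.last l else ⟨g.val - 1, by omega⟩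

lemma dn_inj {g g' : Fin (l + 1)} (h : dn g = dn g') : g = g' := by
  unfold dn at h
  have h1 := g.2
  have h2 := g'.2
  split_ifs at h with e1 e2 e2
  · exact Fin.ext (by omega)
  · have := Fin.ext_iff.1 h
    simp only [Fin.val_last] at this
    omega
  · have := Fin.ext_iff.1 h
    simp only [Fin.val_last] at this
    omega
  · have := Fin.ext_iff.1 h
    simp only at this
    exact Fin.ext (by omega)

lemma gap_dn (hl : 1 ≤ l) (M : ℕ) (x : Fin l → ℕ) (g : Fin (l + 1)) :
    Pool.Agent.H56.EH.gap M x (dn g) = gp M (cns x) g := by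
  unfold Pool.Agent.H56.EH.gap gp dn
  obtain ⟨g, hg⟩ := g
  rcases g with _ | g
  · have e0 : (if (⟨0, hg⟩ : Fin (l + 1)).val = 0 then Fin.last l
        else ⟨(⟨0, hg⟩ : Fin (l + 1)).val - 1, by simp⟩) = Fin.last l := by simp
    rw [e0, dif_neg (by simp), dif_pos (by simp; omega), if_pos rfl]
    congr 1
    have e3 : cns x (Fin.last l) = x ⟨l - 1, by omega⟩ := by
      have e : Fin.last l = ⟨(l - 1) + 1, by omega⟩ := Fin.ext (by simp; omega)
      rw [e]
      exact cns_mk x _
    rw [e3]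
    rfl
  · have e0 : (if (⟨g + 1, hg⟩ : Fin (l + 1)).val = 0 then Fin.last l
        else ⟨(⟨g + 1, hg⟩ : Fin (l + 1)).val - 1, by omega⟩) = ⟨g, by omega⟩ := by simp
    rw [e0, if_neg (by simp), dif_pos (by simp; omega)]
    have e1 : cns x ⟨g + 1, hg⟩ = x ⟨g, by omega⟩ := cns_mk x hg
    rw [e1]
    congr 1
    rcases g with _ | g
    · rw [dif_neg (by simp)]
      rfl
    · rw [dif_pos (by simp)]
      have e2 : cns x ⟨(⟨g + 1 + 1, hg⟩ : Fin (l + 1)).val - 1, by omega⟩ = x ⟨g, by omega⟩ :=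
        cns_mk x (by omega)
      rw [e2]
      rfl

/-- the mean changes little in a unit cube -/
lemma fhat_cube {F : (Fin (l + 1) → ℕ) → Fin (l + 1) → ℝ} {B : ℝ} {m : ℕ} (hm : 0 < m)
    (hB : 0 ≤ B) (hbd : ∀ t, Adm N t → ∀ j, |F t j| ≤ B)
    {s s' : Fin (l + 1) → ℕ} (hs : Adm (m * N) s) (hs' : Adm (m * N) s')
    (h : ∀ k, s k ≤ s' k ∧ s' k ≤ s k + 1) (i : Fin (l + 1)) :
    |fhat F m s i - fhat F m s' i| ≤ 2 * B * (l + 1) / m := by
  have hm' : (0 : ℝ) < m := by exact_mod_cast hm
  unfold fhat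
  rw [← sub_div, abs_div, abs_of_pos hm', ← Finset.sum_sub_distrib]
  refine div_le_div_of_nonneg_right ?_ hm'.le
  refine (Finset.abs_sum_le_sum_abs _ _).trans ?_
  have hle : ∀ θ k, (s k + θ) / m ≤ (s' k + θ) / m := fun θ k =>
    Nat.div_le_div_right (by have := (h k).1; omega)
  have h3 : ∀ θ ∈ range m, |F (rnd m θ s) i - F (rnd m θ s') i| ≤
      2 * B * ∑ k, ((((s' k + θ) / m : ℕ) : ℝ) - (((s k + θ) / m : ℕ) : ℝ)) := by
    intro θ hθ
    have hθ' := Finset.mem_range.1 hθ
    have hnn : ∀ k ∈ (univ : Finset (Fin (l + 1))),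
        (0 : ℝ) ≤ (((s' k + θ) / m : ℕ) : ℝ) - (((s k + θ) / m : ℕ) : ℝ) := by
      intro k _
      have : (((s k + θ) / m : ℕ) : ℝ) ≤ (((s' k + θ) / m : ℕ) : ℝ) := by exact_mod_cast hle θ k
      linarith
    by_cases he : ∀ k, (s k + θ) / m = (s' k + θ) / m
    · have e : rnd m θ s = rnd m θ s' := by
        funext k
        exact he k
      rw [e, sub_self, abs_zero]
      exact mul_nonneg (by linarith) (sum_nonneg hnn)
    · push Not at he
      obtain ⟨k, hk⟩ := he
      have h4 : (s k + θ) / m + 1 ≤ (s' k + θ) / m := by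
        have := hle θ k
        omega
      have h5 : (1 : ℝ) ≤ (((s' k + θ) / m : ℕ) : ℝ) - (((s k + θ) / m : ℕ) : ℝ) := by
        have : (((s k + θ) / m + 1 : ℕ) : ℝ) ≤ (((s' k + θ) / m : ℕ) : ℝ) := by
          exact_mod_cast h4
        push_cast at this ⊢
        linarith
      have h5' : (1 : ℝ) ≤ ∑ k, ((((s' k + θ) / m : ℕ) : ℝ) - (((s k + θ) / m : ℕ) : ℝ)) :=
        h5.trans (single_le_sum hnn (mem_univ k))
      have h6 := hbd _ (rnd_adm hm hθ' hs) i
      have h7 := hbd _ (rnd_adm hm hθ' hs') i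
      have h8 := abs_sub (F (rnd m θ s) i) (F (rnd m θ s') i)
      have h9 : 2 * B * 1 ≤ 2 * B * ∑ k, ((((s' k + θ) / m : ℕ) : ℝ) - (((s k + θ) / m : ℕ) : ℝ)) :=
        mul_le_mul_of_nonneg_left h5' (by linarith)
      linarith
  refine (Finset.sum_le_sum h3).trans ?_
  rw [← Finset.mul_sum, Finset.sum_comm]
  have h4 : ∀ k ∈ (univ : Finset (Fin (l + 1))),
      ∑ θ ∈ range m, ((((s' k + θ) / m : ℕ) : ℝ) - (((s k + θ) / m : ℕ) : ℝ)) ≤ 1 := by
    intro k _
    rw [Finset.sum_sub_distrib]
    have e1 := herm hm (s' k)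
    have e2 := herm hm (s k)
    rw [← Nat.cast_sum, ← Nat.cast_sum, e1, e2]
    have : ((s' k : ℕ) : ℝ) ≤ ((s k + 1 : ℕ) : ℝ) := by exact_mod_cast (h k).2
    push_cast at this
    linarith
  have h5 := Finset.sum_le_sum h4
  rw [Finset.sum_const, Finset.card_univ, Fintype.card_fin, nsmul_eq_mul, mul_one] at h5
  push_cast at h5
  exact mul_le_mul_of_nonneg_left h5 (by linarith)

lemma rnd_gp_zero {m θ : ℕ} (hm : 0 < m) {s : Fin (l + 1) → ℕ} {g : Fin (l + 1)}
    (hs : Adm (m * N) s) (h : gp (m * N) s g = 0) : gp N (rnd m θ s) g = 0 := by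
  unfold gp at h ⊢
  by_cases hg : g.val = 0
  · rw [if_pos hg] at h ⊢
    have h1 := hs.2.1 (Fin.last l)
    have h2 : s (Fin.last l) = m * N := by omega
    unfold rnd
    rw [h2]
    have : N ≤ (m * N + θ) / m := by
      rw [Nat.le_div_iff_mul_le hm]
      nlinarith
    omega
  · rw [if_neg hg] at h ⊢
    have h1 : s g ≤ s ⟨g.val - 1, by omega⟩ := by omega
    have : (s g + θ) / m ≤ (s ⟨g.val - 1, by omega⟩ + θ) / m := Nat.div_le_div_right (by omega)
    unfold rnd
    omega

lemma rnd_gp_thin {m θ : ℕ} (hm : 0 < m) {s : Fin (l + 1) → ℕ} {g : Fin (l + 1)}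
    (hg : g.val ≠ 0) (h : gp (m * N) s g < m) : gp N (rnd m θ s) g ≤ 1 := by
  unfold gp at h ⊢
  rw [if_neg hg] at h ⊢
  have h1 : s g < s ⟨g.val - 1, by omega⟩ + m := by omega
  have : (s g + θ) / m ≤ (s ⟨g.val - 1, by omega⟩ + θ) / m + 1 := by
    rw [← Nat.add_div_right _ hm]
    exact Nat.div_le_div_right (by omega)
  unfold rnd
  omega

lemma rnd_gp_pos {m θ : ℕ} (hm : 0 < m) {s : Fin (l + 1) → ℕ} {g : Fin (l + 1)}
    (hg : g.val ≠ 0) (h : m ≤ gp (m * N) s g) : 1 ≤ gp N (rnd m θ s) g := by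
  unfold gp at h ⊢
  rw [if_neg hg] at h ⊢
  have h1 : s ⟨g.val - 1, by omega⟩ + m ≤ s g := by omega
  have : (s ⟨g.val - 1, by omega⟩ + θ) / m + 1 ≤ (s g + θ) / m := by
    rw [← Nat.add_div_right _ hm]
    exact Nat.div_le_div_right (by omega)
  unfold rnd
  omega

/-- the run through the residues -/
lemma run_surj {p r g : ℕ} (hco : p.Coprime r) (hp : 0 < p) (hr : 0 < r) (hg : g < p + r)
    (h0 : g ≠ 0) : ∃ i, i + 1 < p + r ∧ ((i + 1) * r) % (p + r) = g := by
  have hco' : r.Coprime (p + r) := by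
    rw [Nat.coprime_add_self_right]
    exact hco.symm
  obtain ⟨m, _, hm⟩ := Nat.exists_mul_mod_eq_one_of_coprime hco' (by omega)
  have h1 : ((m * g % (p + r)) * r) % (p + r) = g := by
    rw [Nat.mod_mul_mod]
    have : m * g * r = r * m * g := by ring
    rw [this, Nat.mul_mod, hm, one_mul, Nat.mod_mod, Nat.mod_eq_of_lt hg]
  have h2 : m * g % (p + r) ≠ 0 := by
    intro h
    rw [h, zero_mul, Nat.zero_mod] at h1
    exact h0 h1.symm
  have h3 := Nat.mod_lt (m * g) (show 0 < p + r by omega)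
  refine ⟨m * g % (p + r) - 1, by omega, ?_⟩
  rw [Nat.sub_add_cancel (by omega)]
  exact h1

lemma run_ne {p r i : ℕ} (hco : p.Coprime r) (hi0 : 0 < i) (hi : i < p + r) :
    (i * r) % (p + r) ≠ 0 := by
  intro h
  have hco' : (p + r).Coprime r := by
    rw [Nat.coprime_add_self_left]
    exact hco
  have h1 : p + r ∣ i := hco'.dvd_of_dvd_mul_right (Nat.dvd_of_mod_eq_zero h)
  exact absurd (Nat.le_of_dvd hi0 h1) (by omega)

/-- **The chain label.** -/
theorem field_chain {l N p r : ℕ} (hN : l + 1 ≤ N) (hp : 0 < p) (hr : 0 < r)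
    (hpr : p + r = l + 1) (hco : p.Coprime r) (F : (Fin (l + 1) → ℕ) → Fin (l + 1) → ℝ) {B c0 : ℝ}
    (hB : 0 ≤ B) (hc0 : 0 ≤ c0) (hbd : ∀ t, Adm N t → ∀ j, |F t j| ≤ B)
    (hG : ∀ t, Adm N t → ∀ g : Fin (l + 1), g.val ≠ 0 → g.val ≠ r → gp N t g = 0 → -c0 ≤ F t g)
    (hNn : ∀ t, Adm N t → ∀ g g' : Fin (l + 1), g.val ≠ 0 → g.val ≠ r → g.val ≠ p → g'.val ≠ 0 →
      (g'.val = g.val + p ∨ g'.val + (l + 1) = g.val + p) → 1 ≤ gp N t g → gp N t g' ≤ 1 →
      F t g ≤ c0)
    (hNp : ∀ t, Adm N t → ∀ g : Fin (l + 1), g.val = p → p ≠ r →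
      (∀ g' : Fin (l + 1), g'.val ≠ 0 → g'.val ≠ p → gp N t g' ≤ 1) → 1 ≤ gp N t g → F t g ≤ c0)
    (hT0 : ∀ t, Adm N t → (∀ g : Fin (l + 1), g.val ≠ 0 → gp N t g ≤ 1) → F t 0 ≤ c0)
    (hZ : ∀ t, Adm N t → gp N t 0 = 0 → ∀ b < p,
      (∀ g : Fin (l + 1), g.val = r + b → 0 < b → 1 ≤ gp N t g) →
      (∀ g : Fin (l + 1), r + b < g.val → gp N t g ≤ 1) →
      -c0 ≤ ((p : ℝ) - b) * F t 0 +
        ∑ g ∈ univ.filter (fun g : Fin (l + 1) => r + b < g.val), ((g.val : ℝ) - r - b) * F t g) :
    ∃ m, 0 < m ∧ ∃ s, Adm (m * N) s ∧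
      ∀ j : Fin (l + 1), j.val ≠ r → |fhat F m s j| ≤ (c0 + 1) * (p ^ 2 + 1) := by
  classical
  have hl : 1 ≤ l := by omega
  -- the refinement
  obtain ⟨m, hm1⟩ := exists_nat_gt (4 * B * (l + 1))
  have hmr : (0 : ℝ) < m := lt_of_le_of_lt (by positivity) hm1
  have hm : 0 < m := by exact_mod_cast hmr
  have hlip : 2 * B * (l + 1) / m ≤ 1 / 2 := by
    rw [div_le_iff₀ hmr]
    linarith
  -- the label
  let rg : Fin (l + 1) := ⟨r, by omega⟩
  let Q : (Fin (l + 1) → ℕ) → Fin (l + 1) → Prop := fun s g =>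
    g.val ≠ 0 ∧ g.val ≠ r ∧ 0 < gp (m * N) s g ∧ fhat F m s g ≤ c0
  let lab : (Fin (l + 1) → ℕ) → Fin (l + 1) := fun s =>
    if 0 < gp (m * N) s 0 ∧ fhat F m s 0 ≤ c0 then 0
    else if h : ∃ g, Q s g then h.choose else rg
  have lab_spec : ∀ s, (lab s = 0 ∧ 0 < gp (m * N) s 0 ∧ fhat F m s 0 ≤ c0) ∨
      (¬ (0 < gp (m * N) s 0 ∧ fhat F m s 0 ≤ c0) ∧ Q s (lab s)) ∨
      (¬ (0 < gp (m * N) s 0 ∧ fhat F m s 0 ≤ c0) ∧ (∀ g, ¬ Q s g) ∧ lab s = rg) := by
    intro s
    by_cases h0 : 0 < gp (m * N) s 0 ∧ fhat F m s 0 ≤ c0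
    · exact Or.inl ⟨if_pos h0, h0⟩
    · by_cases h1 : ∃ g, Q s g
      · refine Or.inr (Or.inl ⟨h0, ?_⟩)
        have e : lab s = h1.choose := by
          show (if _ then _ else _) = _
          rw [if_neg h0, dif_pos h1]
        rw [e]
        exact h1.choose_spec
      · refine Or.inr (Or.inr ⟨h0, fun g hg => h1 ⟨g, hg⟩, ?_⟩)
        show (if _ then _ else _) = _
        rw [if_neg h0, dif_neg h1]
  -- the label `r` is legal
  have hleg : ∀ s, Adm (m * N) s → gp (m * N) s (lab s) ≠ 0 := by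
    intro s hs
    rcases lab_spec s with h | h | h
    · rw [h.1]
      exact h.2.1.ne'
    · exact h.2.2.2.1.ne'
    · obtain ⟨h0, h1, h2⟩ := h
      rw [h2]
      intro hr0
      -- all the gaps of the run are thin
      have hrun : ∀ i, i + 1 < p + r → ∀ g : Fin (l + 1), g.val = ((i + 1) * r) % (p + r) →
          gp (m * N) s g < m := by
        intro i
        induction i using Nat.strong_induction_on with
        | _ i ih =>
          intro hi g hg
          rcases i with _ | i
          · rw [zero_add, one_mul, Nat.mod_eq_of_lt (by omega)] at hg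
            have : g = rg := Fin.ext hg
            rw [this, hr0]
            exact hm
          · by_contra hbig
            push Not at hbig
            have hg0 : g.val ≠ 0 := by
              rw [hg]
              exact run_ne hco (by omega) hi
            have hprev : ((i + 1) * r) % (p + r) ≠ 0 := run_ne hco (by omega) (by omega)
            have hlt := Nat.mod_lt ((i + 1) * r) (show 0 < p + r by omega)
            set q := ((i + 1) * r) % (p + r) with hq
            have hgq : g.val = (q + r) % (p + r) := by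
              rw [hg, hq, Nat.mod_add_mod]
              congr 1
              ring
            have hgr : g.val ≠ r := by
              intro h
              rw [hgq] at h
              have h3 : (p + r) ∣ q := by
                have : q + r ≡ 0 + r [MOD (p + r)] := by
                  show (q + r) % (p + r) = (0 + r) % (p + r)
                  rw [h, zero_add, Nat.mod_eq_of_lt (by omega)]
                have h4 := Nat.ModEq.add_right_cancel' r this
                exact (Nat.modEq_zero_iff_dvd).1 h4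
              exact absurd (Nat.le_of_dvd (Nat.pos_of_ne_zero hprev) h3) (by omega)
            let g' : Fin (l + 1) := ⟨q, by omega⟩
            have hgg : g'.val = g.val + p ∨ g'.val + (l + 1) = g.val + p := by
              show q = g.val + p ∨ q + (l + 1) = g.val + p
              rcases Nat.lt_or_ge (q + r) (p + r) with h3 | h3
              · rw [Nat.mod_eq_of_lt h3] at hgq
                omega
              · rw [Nat.mod_eq_sub_mod h3, Nat.mod_eq_of_lt (by omega)] at hgq
                omega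
            have hthin : gp (m * N) s g' < m := ih i (by omega) (by omega) g' rfl
            have hF : fhat F m s g ≤ c0 := by
              refine fhat_le hm fun θ hθ => ?_
              by_cases hgp : g.val = p
              · refine hNp _ (rnd_adm hm hθ hs) g hgp (fun h => hgr (by rw [hgp, h])) ?_
                  (rnd_gp_pos hm hg0 hbig)
                intro g1 hg1 hg1p
                obtain ⟨i1, hi1, hi2⟩ := run_surj hco hp hr (by rw [hpr]; exact g1.2) hg1
                -- the place of `p` in the run is the last one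
                have h3 : (p + r) ∣ (i + 1 + 1 + 1) := by
                  have hco' : (p + r).Coprime r := by
                    rw [Nat.coprime_add_self_left]
                    exact hco
                  refine hco'.dvd_of_dvd_mul_right ?_
                  rw [Nat.dvd_iff_mod_eq_zero]
                  have h4 : ((i + 1 + 1 + 1) * r) % (p + r) =
                      (((i + 1 + 1) * r) % (p + r) + r) % (p + r) := by
                    rw [Nat.mod_add_mod]
                    congr 1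
                    ring
                  rw [h4, ← hg, hgp, Nat.mod_self]
                have h4 := Nat.le_of_dvd (by omega) h3
                have h5 : i1 < i + 1 := by
                  by_contra h6
                  have h7 : i1 = i + 1 := by omega
                  rw [h7] at hi2
                  exact hg1p (by rw [← hi2, ← hg, hgp])
                exact rnd_gp_thin hm hg1 (ih i1 (by omega) hi1 g1 hi2.symm)
              · exact hNn _ (rnd_adm hm hθ hs) g g' hg0 hgr hgp hprev hgg
                  (rnd_gp_pos hm hg0 hbig) (rnd_gp_thin hm hprev hthin)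
            exact h1 g ⟨hg0, hgr, lt_of_lt_of_le hm hbig, hF⟩
      -- so the label `0` was available
      have hall : ∀ g : Fin (l + 1), g.val ≠ 0 → gp (m * N) s g < m := by
        intro g hg
        obtain ⟨i, hi1, hi2⟩ := run_surj hco hp hr (by rw [hpr]; exact g.2) hg
        exact hrun i hi1 g hi2.symm
      refine h0 ⟨?_, ?_⟩
      · have h3 := le_of_gp hs (fun i => hall i.succ (by simp)) (Fin.last l)
        rw [gp_zero]
        simp only [Fin.val_last] at h3
        have h4 : (l + 1) * m ≤ m * N := by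
          rw [mul_comm m N]
          exact Nat.mul_le_mul_right _ hN
        have h5 : (l + 1) * m = l * m + m := by ring
        omega
      · refine fhat_le hm fun θ hθ => hT0 _ (rnd_adm hm hθ hs) fun g hg => ?_
        exact rnd_gp_thin hm hg (hall g hg)
  -- the full cell
  obtain ⟨x, hx1, hx2, hx3⟩ := Pool.Agent.H98.EH.KKM.kkm l (m * N) (fun x => dn (lab (cns x)))
    (fun x h1 h2 => by
      show Pool.Agent.H56.EH.gap (m * N) x (dn (lab (cns x))) ≠ 0
      rw [gap_dn hl]
      exact hleg _ (cns_adm h1 h2))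
  have hcell : ∀ j : Fin (l + 1), ∃ s, Adm (m * N) s ∧ lab s = j ∧
      ∀ i, |fhat F m (cns x) i - fhat F m s i| ≤ 1 / 2 := by
    intro j
    obtain ⟨y, hy1, hy2, hy3, hy4⟩ := hx3 (dn j)
    refine ⟨cns y, cns_adm hy1 hy2, dn_inj hy4, fun i => ?_⟩
    refine (fhat_cube hm hB hbd (cns_adm hx1 hx2) (cns_adm hy1 hy2) (fun k => ?_) i).trans hlip
    obtain ⟨k, hk⟩ := k
    rcases k with _ | k
    · exact ⟨Nat.zero_le _, Nat.zero_le _⟩
    · rw [cns_mk, cns_mk]
      exact hy3 _
  obtain ⟨s, hs, hlab, hsx⟩ := hcell rg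
  have hrg0 : rg ≠ 0 := by
    intro h
    have : r = 0 := Fin.ext_iff.1 h
    omega
  obtain ⟨h0, h1⟩ : ¬ (0 < gp (m * N) s 0 ∧ fhat F m s 0 ≤ c0) ∧ ∀ g, ¬ Q s g := by
    rcases lab_spec s with h | h | h
    · exact absurd (hlab.symm.trans h.1) hrg0
    · exact absurd (by rw [hlab]) h.2.2.1
    · exact ⟨h.1, h.2.1⟩
  have hup : ∀ g : Fin (l + 1), g.val ≠ r → fhat F m s g ≤ c0 + 1 := by
    intro g hgr
    obtain ⟨s', hs', hlab', hsx'⟩ := hcell g
    have h2 : fhat F m s' g ≤ c0 := by
      rcases lab_spec s' with h | h | h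
      · have : g = 0 := hlab'.symm.trans h.1
        rw [this]
        exact h.2.2
      · have := h.2.2.2.2
        rwa [hlab'] at this
      · have h3 := hlab'.symm.trans h.2.2
        exact absurd (by rw [h3]) hgr
    have h3 := abs_le.1 (hsx g)
    have h4 := abs_le.1 (hsx' g)
    linarith
  have hlo : ∀ g : Fin (l + 1), g.val ≠ 0 → g.val ≠ r → -c0 ≤ fhat F m s g := by
    intro g hg0 hgr
    rcases Nat.eq_zero_or_pos (gp (m * N) s g) with h2 | h2
    · exact le_fhat hm fun θ hθ => hG _ (rnd_adm hm hθ hs) g hg0 hgr (rnd_gp_zero hm hs h2)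
    · by_contra h3
      exact h1 g ⟨hg0, hgr, h2, by linarith⟩
  have hp1 : (1 : ℝ) ≤ p := by exact_mod_cast hp
  have hmid : ∀ g : Fin (l + 1), g.val ≠ 0 → g.val ≠ r → |fhat F m s g| ≤ c0 + 1 := fun g hg0 hgr =>
    abs_le.2 ⟨by have := hlo g hg0 hgr; linarith, hup g hgr⟩
  have hK : c0 + 1 ≤ (c0 + 1) * (p ^ 2 + 1) := by
    have : (0 : ℝ) ≤ (c0 + 1) * p ^ 2 := by positivity
    linarith
  refine ⟨m, hm, s, hs, fun j hj => ?_⟩
  by_cases hj0 : j.val = 0
  swap
  · exact (hmid j hj0 hj).trans hK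
  have ej : j = 0 := Fin.ext hj0
  rw [ej, abs_le]
  refine ⟨?_, (hup 0 (by simp; omega)).trans hK⟩
  -- the lower bound of the component `0`
  by_cases h2 : fhat F m s 0 ≤ c0
  swap
  · have : (0 : ℝ) ≤ (c0 + 1) * (p ^ 2 + 1) := by positivity
    linarith
  have hg0 : gp (m * N) s 0 = 0 := by
    by_contra h3
    exact h0 ⟨Nat.pos_of_ne_zero h3, h2⟩
  -- the last block of thin gaps
  let P : ℕ → Prop := fun b => b < p ∧ ∀ g : Fin (l + 1), r + b < g.val → gp (m * N) s g < m
  have hP : ∃ b, P b := ⟨p - 1, by omega, fun g hg => by have := g.2; omega⟩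
  obtain ⟨hb1, hb2⟩ : P (Nat.find hP) := Nat.find_spec hP
  set b := Nat.find hP with hb
  have hb3 : ∀ g : Fin (l + 1), g.val = r + b → 0 < b → m ≤ gp (m * N) s g := by
    intro g hg hb0
    by_contra h3
    refine Nat.find_min hP (show b - 1 < b by omega) ⟨by omega, fun g' hg' => ?_⟩
    rcases Nat.lt_or_ge (r + b) g'.val with h4 | h4
    · exact hb2 g' h4
    · have : g' = g := Fin.ext (by omega)
      rw [this]
      omega
  have hZ' : -c0 ≤ ((p : ℝ) - b) * fhat F m s 0 +
      ∑ g ∈ univ.filter (fun g : Fin (l + 1) => r + b < g.val),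
        ((g.val : ℝ) - r - b) * fhat F m s g := by
    have e : ((p : ℝ) - b) * fhat F m s 0 +
      ∑ g ∈ univ.filter (fun g : Fin (l + 1) => r + b < g.val),
        ((g.val : ℝ) - r - b) * fhat F m s g = fhat (fun t _ => ((p : ℝ) - b) * F t 0 +
        ∑ g ∈ univ.filter (fun g : Fin (l + 1) => r + b < g.val),
          ((g.val : ℝ) - r - b) * F t g) m s 0 := by
      unfold fhat
      rw [Finset.sum_add_distrib, ← Finset.mul_sum, add_div, mul_div_assoc]
      congr 1
      rw [Finset.sum_comm, Finset.sum_div]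
      refine sum_congr rfl fun g _ => ?_
      rw [← Finset.mul_sum, mul_div_assoc]
    rw [e]
    refine le_fhat hm fun θ hθ => ?_
    refine hZ _ (rnd_adm hm hθ hs) (rnd_gp_zero hm hs hg0) b hb1 ?_ ?_
    · intro g hg hb0
      exact rnd_gp_pos hm (by omega) (hb3 g hg hb0)
    · intro g hg
      exact rnd_gp_thin hm (by omega) (hb2 g hg)
  have hpb : (1 : ℝ) ≤ (p : ℝ) - b := by
    have : ((b + 1 : ℕ) : ℝ) ≤ p := by exact_mod_cast hb1
    push_cast at this
    linarith
  have hsum : ∑ g ∈ univ.filter (fun g : Fin (l + 1) => r + b < g.val),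
      ((g.val : ℝ) - r - b) * fhat F m s g ≤ (c0 + 1) * p ^ 2 := by
    have h3 : ∀ g ∈ univ.filter (fun g : Fin (l + 1) => r + b < g.val),
        ((g.val : ℝ) - r - b) * fhat F m s g ≤ p * (c0 + 1) := by
      intro g hg
      rw [mem_filter] at hg
      have h4 : (0 : ℝ) ≤ (g.val : ℝ) - r - b := by
        have : ((r + b : ℕ) : ℝ) ≤ (g.val : ℝ) := by exact_mod_cast hg.2.le
        push_cast at this
        linarith
      have h5 : (g.val : ℝ) - r - b ≤ p := by
        have : ((g.val : ℕ) : ℝ) ≤ ((r + b + p : ℕ) : ℝ) := by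
          have := g.2
          exact_mod_cast (by omega : g.val ≤ r + b + p)
        push_cast at this
        linarith
      have h6 := hup g (by omega)
      calc ((g.val : ℝ) - r - b) * fhat F m s g ≤ ((g.val : ℝ) - r - b) * (c0 + 1) :=
            mul_le_mul_of_nonneg_left h6 h4
        _ ≤ p * (c0 + 1) := mul_le_mul_of_nonneg_right h5 (by linarith)
    refine (sum_le_sum h3).trans ?_
    rw [sum_const, nsmul_eq_mul]
    have h4 : (univ.filter (fun g : Fin (l + 1) => r + b < g.val)).card ≤ p := by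
      have h5 : (univ.filter (fun g : Fin (l + 1) => r + b < g.val)).card ≤
          (Finset.Ico r (r + p)).card := by
        refine card_le_card_of_injOn (fun g => g.val) (fun g hg => ?_) (fun a _ b _ h => Fin.ext h)
        have hg' := (mem_filter.1 hg).2
        have := g.2
        simp only [Finset.coe_Ico, Set.mem_Ico]
        omega
      rw [Nat.card_Ico] at h5
      omega
    have h5 : ((univ.filter (fun g : Fin (l + 1) => r + b < g.val)).card : ℝ) ≤ p := by
      exact_mod_cast h4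
    have h6 : (0 : ℝ) ≤ p * (c0 + 1) := by positivity
    calc _ ≤ (p : ℝ) * (p * (c0 + 1)) := mul_le_mul_of_nonneg_right h5 h6
      _ = (c0 + 1) * p ^ 2 := by ring
  rcases le_or_gt 0 (fhat F m s 0) with h3 | h3
  · have : (0 : ℝ) ≤ (c0 + 1) * (p ^ 2 + 1) := by positivity
    linarith
  · have h4 : ((p : ℝ) - b) * fhat F m s 0 ≤ fhat F m s 0 := by
      nlinarith
    have h5 : (c0 + 1) * ((p : ℝ) ^ 2 + 1) = (c0 + 1) * p ^ 2 + (c0 + 1) := by ring
    linarith

end Pool.Agent.H70.RG
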